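import Pool.Agent.Helper16.CB.Defs
import Pool.Agent.Helper35.CB.Legendre

/-! Project CB, A4: balancing the archimedean absolute values by a square. -/

set_option autoImplicit false

namespace Pool.Agent.Helper28.CB

open NumberField Module NumberField.InfinitePlace NumberField.mixedEmbedding MeasureTheory
open Pool.Agent.Helper16.CB Pool.Agent.Helper35.CB
open scoped NNReal

/-- a constant which makes Minkowski's theorem applicable -/
theorem exists_const (L : Type*) [Field L] [NumberField L] :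
    ∃ C : ℝ≥0, 1 ≤ C ∧ minkowskiBound L ↑1 < (convexBodyLTFactor L : ENNReal) *
      ((C ^ finrank ℚ L : ℝ≥0) : ENNReal) := by
  obtain ⟨M, hM⟩ := ENNReal.exists_nat_gt (minkowskiBound_lt_top L ↑1).ne
  refine ⟨(M : ℝ≥0) + 1, by simp, ?_⟩
  have hn : 1 ≤ finrank ℚ L := finrank_pos
  have h1 : (M : ENNReal) ≤ (((((M : ℝ≥0) + 1) ^ finrank ℚ L : ℝ≥0)) : ENNReal) := by
    have h2 : (M : ℝ≥0) ≤ ((M : ℝ≥0) + 1) ^ finrank ℚ L :=
      (le_add_of_nonneg_right zero_le_one).trans (le_self_pow₀ (by simp) (by omega))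
    exact_mod_cast h2
  have h3 : (1 : ENNReal) ≤ (convexBodyLTFactor L : ENNReal) := by
    exact_mod_cast one_le_convexBodyLTFactor L
  calc _ < (M : ENNReal) := hM
    _ ≤ _ := h1
    _ = 1 * _ := (one_mul _).symm
    _ ≤ _ := mul_le_mul_left h3 _

/-- A4 -/
theorem exists_bal (L : Type*) [Field L] [NumberField L] :
    ∃ c : ℝ, 0 < c ∧ ∀ a : 𝓞 L, a ≠ 0 → ∃ η : 𝓞 L, η ≠ 0 ∧ Bal c (a * η ^ 2) := by
  classical
  obtain ⟨C, hC1, hC⟩ := exists_const L
  set n := finrank ℚ L with hn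
  have hn1 : 1 ≤ n := finrank_pos
  have hC1' : (1 : ℝ) ≤ C := by exact_mod_cast hC1
  refine ⟨(C : ℝ) ^ (2 * n), by positivity, fun a ha => ?_⟩
  have ha' : (a : L) ≠ 0 := by simpa using ha
  set N : ℝ := |((Algebra.norm ℤ a : ℤ) : ℝ)| with hN
  have hN1 : 1 ≤ N := by
    have h1 : Algebra.norm ℤ a ≠ 0 := by simpa [Algebra.norm_eq_zero_iff] using ha
    rw [hN, ← Int.cast_abs]
    exact_mod_cast Int.one_le_abs h1
  have hN0 : 0 < N := by linarith
  set t : ℝ := N ^ (1 / (n : ℝ)) with ht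
  have ht0 : 0 < t := Real.rpow_pos_of_pos hN0 _
  have htn : t ^ n = N := by
    rw [ht, one_div, Real.rpow_inv_natCast_pow hN0.le (by omega)]
  have hwa : ∀ w : InfinitePlace L, 0 < w (a : L) := fun w => w.pos_iff.2 ha'
  let f : InfinitePlace L → ℝ≥0 := fun w =>
    ⟨(C : ℝ) * Real.sqrt (t / w (a : L)), by positivity⟩
  have hf : ∀ w, (f w : ℝ) = (C : ℝ) * Real.sqrt (t / w (a : L)) := fun w => rfl
  have hf2 : ∀ w, (f w : ℝ) ^ 2 = (C : ℝ) ^ 2 * t / w (a : L) := by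
    intro w
    rw [hf, mul_pow, Real.sq_sqrt (div_nonneg ht0.le (hwa w).le), mul_div_assoc]
  have hprodN : ∏ w : InfinitePlace L, w (a : L) ^ mult w = N := by
    rw [InfinitePlace.prod_eq_abs_norm, hN]
    have h2 : ((Algebra.norm ℤ a : ℤ) : ℚ) = Algebra.norm ℚ (a : L) := Algebra.coe_norm_int a
    rw [← h2]
    push_cast
    rfl
  have hprod : ∏ w, (f w) ^ mult w = C ^ n := by
    have h1 : ((∏ w, (f w : ℝ) ^ mult w)) ^ 2 = ((C : ℝ) ^ n) ^ 2 := by
      rw [← Finset.prod_pow]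
      have h2 : ∀ w : InfinitePlace L, ((f w : ℝ) ^ mult w) ^ 2 =
          ((C : ℝ) ^ 2 * t) ^ mult w / (w (a : L)) ^ mult w := by
        intro w
        rw [← pow_mul, mul_comm (mult w) 2, pow_mul, hf2, div_pow]
      rw [Finset.prod_congr rfl (fun w _ => h2 w), Finset.prod_div_distrib, hprodN,
        Finset.prod_pow_eq_pow_sum, InfinitePlace.sum_mult_eq, ← hn, mul_pow, htn,
        mul_div_assoc, div_self hN0.ne', mul_one, ← pow_mul, ← pow_mul, mul_comm]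
    have h3 : (∏ w, (f w : ℝ) ^ mult w) = (C : ℝ) ^ n :=
      (pow_left_inj₀ (Finset.prod_nonneg fun w _ => by positivity) (by positivity)
        (by norm_num)).1 h1
    exact_mod_cast h3
  obtain ⟨η, hη0, hη⟩ := exists_ne_zero_mem_ringOfIntegers_lt L (f := f) (by
    rw [convexBodyLT_volume, hprod]
    exact hC)
  refine ⟨η, hη0, ?_⟩
  set x : 𝓞 L := a * η ^ 2 with hx
  have hx0 : x ≠ 0 := mul_ne_zero ha (pow_ne_zero _ hη0)
  set B : ℝ := (C : ℝ) ^ 2 * t with hB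
  have hB0 : 0 < B := by positivity
  have hσ : ∀ σ : L →+* ℂ, ‖σ (x : L)‖ ≤ B := by
    intro σ
    have h1 := hη (InfinitePlace.mk σ)
    rw [← InfinitePlace.apply σ]
    have h2 : (InfinitePlace.mk σ) (x : L) =
        (InfinitePlace.mk σ) (a : L) * ((InfinitePlace.mk σ) (η : L)) ^ 2 := by
      rw [hx]
      push_cast
      rw [map_mul, map_pow]
    rw [h2]
    have h3 : ((InfinitePlace.mk σ) (η : L)) ^ 2 ≤ (f (InfinitePlace.mk σ) : ℝ) ^ 2 :=
      pow_le_pow_left₀ (apply_nonneg _ _) h1.le 2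
    rw [hf2] at h3
    calc _ ≤ (InfinitePlace.mk σ) (a : L) * (B / (InfinitePlace.mk σ) (a : L)) :=
          mul_le_mul_of_nonneg_left h3 (hwa _).le
      _ = B := mul_div_cancel₀ _ (hwa _).ne'
  set M : ℝ := |((Algebra.norm ℤ x : ℤ) : ℝ)| with hM
  have hMN : N ≤ M := by
    have h1 : Algebra.norm ℤ η ≠ 0 := by simpa [Algebra.norm_eq_zero_iff] using hη0
    have h2 : (1 : ℝ) ≤ |((Algebra.norm ℤ η : ℤ) : ℝ)| := by
      rw [← Int.cast_abs]
      exact_mod_cast Int.one_le_abs h1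
    rw [hM, hx, map_mul, map_pow]
    push_cast
    rw [abs_mul, abs_pow]
    have h3 : (1 : ℝ) ≤ |((Algebra.norm ℤ η : ℤ) : ℝ)| ^ 2 := one_le_pow₀ h2
    nlinarith
  have hM0 : 0 < M := by linarith
  have hBn : B ^ n ≤ (C : ℝ) ^ (2 * n) * M := by
    rw [hB, mul_pow, ← pow_mul, htn]
    exact mul_le_mul_of_nonneg_left hMN (by positivity)
  have hlow : ∀ σ : L →+* ℂ, B ≤ (C : ℝ) ^ (2 * n) * ‖σ (x : L)‖ := fun σ =>
    le_norm_embedding hB0 hσ hBn (by positivity) σ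
  have hMB : M ^ (1 / (n : ℝ)) ≤ B := by
    have h1 : M ≤ B ^ n := by
      rw [hM, abs_norm_eq_prod]
      calc ∏ σ : L →+* ℂ, ‖σ (x : L)‖ ≤ ∏ _σ : L →+* ℂ, B :=
            Finset.prod_le_prod (fun _ _ => norm_nonneg _) (fun σ _ => hσ σ)
        _ = B ^ n := by
            rw [Finset.prod_const, Finset.card_univ, NumberField.Embeddings.card L ℂ]
    calc M ^ (1 / (n : ℝ)) ≤ (B ^ n) ^ (1 / (n : ℝ)) :=
          Real.rpow_le_rpow hM0.le h1 (by positivity)
      _ = B := by rw [one_div, Real.pow_rpow_inv_natCast hB0.le (by omega)]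
  have htM : t ≤ M ^ (1 / (n : ℝ)) := Real.rpow_le_rpow hN0.le hMN (by positivity)
  have habs : ((Ideal.absNorm (Ideal.span {x}) : ℕ) : ℝ) = M := by
    rw [Ideal.absNorm_span_singleton, Nat.cast_natAbs, Int.cast_abs]
  intro φ
  rw [habs, ← hn]
  refine ⟨(hσ φ).trans ?_, hMB.trans (hlow φ)⟩
  have h5 : (C : ℝ) ^ 2 ≤ (C : ℝ) ^ (2 * n) := pow_le_pow_right₀ hC1' (by omega)
  calc B = (C : ℝ) ^ 2 * t := hB
    _ ≤ (C : ℝ) ^ (2 * n) * M ^ (1 / (n : ℝ)) := mul_le_mul h5 htM ht0.le (by positivity)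

end Pool.Agent.Helper28.CB
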